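import Pool.Agent.Lib.MP_de2e60_co.Upper1
import Pool.Agent.Lib.MP_de2e60_co.HamSandwich

/-!
MP_de2e60_co: the exact value for one turn.  Every two finite absolutely continuous measures on the plane
are split by half by a polygonal path with at most one turn, and there are three such measures which no
polygonal path with at most one turn splits by half simultaneously.
-/

set_option autoImplicit false

namespace Pool.Agent.Results.MP_de2e60_co.OneTurn

/-- `m(1) = 2`. -/
theorem result : IsGreatest {m : ℕ | MPde2e60.AlwaysSplit 1 m} 2 :=
  ⟨MPde2e60.lower_one, fun _ h => MPde2e60.upper_one h⟩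

end Pool.Agent.Results.MP_de2e60_co.OneTurn
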