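import Pool.Agent.Lib.MP_de2e60_co.Main

/-!
MP_de2e60_co: for every number `n ≥ 1` of turns, at most `2 n + 1` measures can always be split by half.
-/

set_option autoImplicit false

namespace Pool.Agent.Results.MP_de2e60_co.UpperBound

/-- `m(n) ≤ 2 n + 1` for every `n ≥ 1`. -/
theorem result : ∀ n : ℕ, 1 ≤ n → ∀ m : ℕ, MPde2e60.AlwaysSplit n m → m ≤ 2 * n + 1 :=
  fun _ hn _ h => MPde2e60.upper_bound hn h

end Pool.Agent.Results.MP_de2e60_co.UpperBound
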